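import Mathlib

/-! # Actions on rings which fix a prime: ramification groups, solvability -/

set_option autoImplicit false

namespace Pool.Agent.Helper8.BKS

variable {R : Type} [CommRing R] {G : Type} [Group G]

/-- an action of a group by ring homomorphisms which preserves an ideal -/
structure Act (q : Ideal R) (ρ : G → R →+* R) : Prop where
  one : ∀ x, ρ 1 x = x
  mul : ∀ g h x, ρ (g * h) x = ρ g (ρ h x)
  stab : ∀ g, ∀ x ∈ q, ρ g x ∈ q

namespace Act

variable {q : Ideal R} {ρ : G → R →+* R}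

theorem pow (A : Act q ρ) (k : ℕ) (g : G) (x : R) (hx : x ∈ q ^ k) : ρ g x ∈ q ^ k := by
  have h1 : Ideal.map (ρ g) q ≤ q := by
    rw [Ideal.map_le_iff_le_comap]
    intro y hy
    exact A.stab g y hy
  have h2 : ρ g x ∈ Ideal.map (ρ g) (q ^ k) := Ideal.mem_map_of_mem _ hx
  rw [Ideal.map_pow] at h2
  exact Ideal.pow_right_mono h1 k h2

theorem inv_left (A : Act q ρ) (g : G) (x : R) : ρ g⁻¹ (ρ g x) = x := by
  rw [← A.mul, inv_mul_cancel, A.one]

theorem inv_right (A : Act q ρ) (g : G) (x : R) : ρ g (ρ g⁻¹ x) = x := by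
  rw [← A.mul, mul_inv_cancel, A.one]

/-- the elements which move the elements of `q ^ i` by elements of `q ^ k` -/
def J (A : Act q ρ) (i k : ℕ) : Subgroup G where
  carrier := {g | ∀ x ∈ q ^ i, ρ g x - x ∈ q ^ k}
  mul_mem' := by
    intro g h hg hh x hx
    have h1 : ρ (g * h) x - x = ρ g (ρ h x - x) + (ρ g x - x) := by
      rw [A.mul, map_sub]
      ring
    rw [h1]
    exact (q ^ k).add_mem (A.pow k g _ (hh x hx)) (hg x hx)
  one_mem' := by
    intro x _
    rw [A.one, sub_self]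
    exact (q ^ k).zero_mem
  inv_mem' := by
    intro g hg x hx
    have h1 : ρ g⁻¹ x - x = - ρ g⁻¹ (ρ g x - x) := by
      rw [map_sub, A.inv_left]
      ring
    rw [h1]
    exact (q ^ k).neg_mem (A.pow k _ _ (hg x hx))

theorem mem_J (A : Act q ρ) {i k : ℕ} {g : G} : g ∈ A.J i k ↔ ∀ x ∈ q ^ i, ρ g x - x ∈ q ^ k :=
  Iff.rfl

theorem comm_mem (A : Act q ρ) {i k : ℕ} {g h : G}
    (H : ∀ x ∈ q ^ i, ρ g (ρ h x) - ρ h (ρ g x) ∈ q ^ k) :
    g * h * g⁻¹ * h⁻¹ ∈ A.J i k := by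
  intro x hx
  have h1 := H _ (A.pow i (h * g)⁻¹ x hx)
  have h2 : ρ g (ρ h (ρ (h * g)⁻¹ x)) = ρ (g * h * g⁻¹ * h⁻¹) x := by
    rw [← A.mul, ← A.mul]
    have e : g * h * (h * g)⁻¹ = g * h * g⁻¹ * h⁻¹ := by group
    rw [e]
  have h3 : ρ h (ρ g (ρ (h * g)⁻¹ x)) = x := by
    rw [← A.mul, ← A.mul, mul_inv_cancel, A.one]
  rwa [h2, h3] at h1

/-- the residue field -/
theorem comm_res (A : Act q ρ) [q.IsMaximal] [Finite (R ⧸ q)] (g h : G) (x : R) :
    ρ g (ρ h x) - ρ h (ρ g x) ∈ q := by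
  let _ := Ideal.Quotient.field q
  set m := Ideal.Quotient.mk q with hm
  have hmk : ∀ (g : G) (x y : R), m x = m y → m (ρ g x) = m (ρ g y) := by
    intro g x y hxy
    rw [hm, Ideal.Quotient.eq] at hxy ⊢
    rw [← map_sub]
    exact A.stab g _ hxy
  obtain ⟨u, hu⟩ := IsCyclic.exists_generator (α := (R ⧸ q)ˣ)
  obtain ⟨u0, hu0⟩ := Ideal.Quotient.mk_surjective (u : R ⧸ q)
  have key : ∀ g : G, ∃ a : ℕ, m (ρ g u0) = m u0 ^ a := by
    intro g
    have hne : m (ρ g u0) ≠ 0 := by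
      intro h0
      rw [hm, Ideal.Quotient.eq_zero_iff_mem] at h0
      have h1 := A.stab g⁻¹ _ h0
      rw [A.inv_left, ← Ideal.Quotient.eq_zero_iff_mem, hu0] at h1
      exact u.ne_zero h1
    have h1 := hu (Units.mk0 _ hne)
    rw [← mem_powers_iff_mem_zpowers] at h1
    obtain ⟨a, ha⟩ := h1
    refine ⟨a, ?_⟩
    have h2 := congrArg Units.val ha
    rw [hm, hu0]
    have h3 : (u : R ⧸ q) ^ a = m (ρ g u0) := by
      rw [← Units.val_pow_eq_pow_val]
      exact h2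
    exact h3.symm
  obtain ⟨a, ha⟩ := key g
  obtain ⟨b, hb⟩ := key h
  by_cases hx : m x = 0
  · have hx' : x ∈ q := by rwa [hm, Ideal.Quotient.eq_zero_iff_mem] at hx
    exact q.sub_mem (A.stab _ _ (A.stab _ _ hx')) (A.stab _ _ (A.stab _ _ hx'))
  have h2 := hu (Units.mk0 _ hx)
  rw [← mem_powers_iff_mem_zpowers] at h2
  obtain ⟨c, hc⟩ := h2
  have hc' : m x = m (u0 ^ c) := by
    have h3 := congrArg Units.val hc
    have h4 : (u : R ⧸ q) ^ c = m x := by
      rw [← Units.val_pow_eq_pow_val]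
      exact h3
    rw [← h4, map_pow, hm, hu0]
  have hpow : ∀ (g : G) (a : ℕ), m (ρ g u0) = m u0 ^ a → ∀ n : ℕ,
      m (ρ g (u0 ^ n)) = m (u0 ^ (a * n)) := by
    intro g a ha n
    rw [map_pow, map_pow, ha, map_pow, ← pow_mul]
  have e1 : m (ρ g (ρ h x)) = m (u0 ^ (a * (b * c))) := by
    rw [hmk g _ _ ((hmk h _ _ hc').trans (hpow h b hb c)), hpow g a ha]
  have e2 : m (ρ h (ρ g x)) = m (u0 ^ (b * (a * c))) := by
    rw [hmk h _ _ ((hmk g _ _ hc').trans (hpow g a ha c)), hpow h b hb]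
  rw [← Ideal.Quotient.eq, ← hm, e1, e2]
  congr 2
  ring

/-- the tangent line -/
theorem comm_tan (A : Act q ρ) (π : R) (hπ : π ∈ q)
    (hgen : ∀ y ∈ q, ∃ c, ∃ e ∈ q ^ 2, π * c + e = y) (g h : G) (hg : g ∈ A.J 0 1)
    (hh : h ∈ A.J 0 1) (y : R) (hy : y ∈ q) : ρ g (ρ h y) - ρ h (ρ g y) ∈ q ^ 2 := by
  have key : ∀ g ∈ A.J 0 1, ∃ a, ∀ c, ∀ e ∈ q ^ 2, ρ g (π * c + e) - π * (a * c) ∈ q ^ 2 := by
    intro g hg
    obtain ⟨a, e1, he1, ha⟩ := hgen (ρ g π) (A.stab g π hπ)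
    refine ⟨a, fun c e he => ?_⟩
    have hc : ρ g c - c ∈ q := by
      have := hg c (by rw [pow_zero, Ideal.one_eq_top]; exact Submodule.mem_top)
      rwa [pow_one] at this
    have h1 : ρ g (π * c + e) - π * (a * c) =
        (ρ g π) * (ρ g c - c) + e1 * c + ρ g e := by
      rw [map_add, map_mul, ← ha]
      ring
    rw [h1]
    refine (q ^ 2).add_mem ((q ^ 2).add_mem ?_ ((q ^ 2).mul_mem_right _ he1)) (A.pow 2 g e he)
    rw [pow_two]
    exact Ideal.mul_mem_mul (A.stab g π hπ) hc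
  obtain ⟨a, ha⟩ := key g hg
  obtain ⟨b, hb⟩ := key h hh
  obtain ⟨c, e, he, rfl⟩ := hgen y hy
  have h1 := hb c e he
  have h2 := ha c e he
  have h3 : ρ h (π * c + e) = π * (b * c) + (ρ h (π * c + e) - π * (b * c)) := by ring
  have h4 : ρ g (π * c + e) = π * (a * c) + (ρ g (π * c + e) - π * (a * c)) := by ring
  have h5 := ha (b * c) _ h1
  have h6 := hb (a * c) _ h2
  rw [← h3] at h5
  rw [← h4] at h6
  have h7 : ρ g (ρ h (π * c + e)) - ρ h (ρ g (π * c + e)) =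
      (ρ g (ρ h (π * c + e)) - π * (a * (b * c))) - (ρ h (ρ g (π * c + e)) - π * (b * (a * c))) := by
    ring
  rw [h7]
  exact (q ^ 2).sub_mem h5 h6

/-- the elements of `q ^ k` are moved by elements of `q ^ (k + 1)` -/
theorem move (A : Act q ρ) (g : G) (h0 : g ∈ A.J 0 1) (h1 : g ∈ A.J 1 2) (k : ℕ) :
    ∀ y ∈ q ^ k, ρ g y - y ∈ q ^ (k + 1) := by
  induction k with
  | zero => exact h0
  | succ k ih =>
    intro y hy
    rw [pow_succ] at hy
    refine Submodule.mul_induction_on hy ?_ ?_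
    · intro a ha b hb
      have e1 : ρ g (a * b) - a * b = ρ g a * (ρ g b - b) + (ρ g a - a) * b := by
        rw [map_mul]
        ring
      rw [e1]
      have h2 : ρ g b - b ∈ q ^ 2 := h1 b (by rwa [pow_one])
      have h3 := ih a ha
      have h4 := A.pow k g a ha
      refine (q ^ (k + 1 + 1)).add_mem ?_ ?_
      · have := Ideal.mul_mem_mul h4 h2
        rwa [← pow_add] at this
      · have := Ideal.mul_mem_mul h3 hb
        rwa [← pow_succ] at this
    · intro a b ha hb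
      have e1 : ρ g (a + b) - (a + b) = (ρ g a - a) + (ρ g b - b) := by
        rw [map_add]
        ring
      rw [e1]
      exact (q ^ (k + 1 + 1)).add_mem ha hb

/-- the terms of the derived series -/
theorem derived (A : Act q ρ) [q.IsMaximal] [Finite (R ⧸ q)] (π : R) (hπ : π ∈ q)
    (hgen : ∀ y ∈ q, ∃ c, ∃ e ∈ q ^ 2, π * c + e = y) (n : ℕ) :
    derivedSeries G (n + 2) ≤ A.J 0 (n + 1) ⊓ A.J 1 2 := by
  have hI : derivedSeries G 1 ≤ A.J 0 1 := by
    rw [derivedSeries_one, commutator_def, Subgroup.commutator_le]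
    intro g _ h _
    rw [commutatorElement_def]
    apply A.comm_mem
    intro x _
    rw [pow_one]
    exact A.comm_res g h x
  induction n with
  | zero =>
    rw [derivedSeries_succ, Subgroup.commutator_le]
    intro g hg h hh
    have hg' := hI hg
    have hh' := hI hh
    refine ⟨?_, ?_⟩
    · rw [commutatorElement_def]
      exact (A.J 0 1).mul_mem ((A.J 0 1).mul_mem ((A.J 0 1).mul_mem hg' hh')
        ((A.J 0 1).inv_mem hg')) ((A.J 0 1).inv_mem hh')
    · rw [commutatorElement_def]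
      apply A.comm_mem
      intro y hy
      rw [pow_one] at hy
      exact A.comm_tan π hπ hgen g h hg' hh' y hy
  | succ n ih =>
    rw [derivedSeries_succ, Subgroup.commutator_le]
    intro g hg h hh
    have hg' := ih hg
    have hh' := ih hh
    have hg0 : g ∈ A.J 0 1 := fun x hx => Ideal.pow_le_pow_right (by omega) (hg'.1 x hx)
    have hh0 : h ∈ A.J 0 1 := fun x hx => Ideal.pow_le_pow_right (by omega) (hh'.1 x hx)
    refine ⟨?_, ?_⟩
    · rw [commutatorElement_def]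
      apply A.comm_mem
      intro x hx
      have e1 : ρ g (ρ h x) - ρ h (ρ g x) = (ρ g (ρ h x - x) - (ρ h x - x)) -
          (ρ h (ρ g x - x) - (ρ g x - x)) := by
        rw [map_sub, map_sub]
        ring
      rw [e1]
      exact (q ^ (n + 1 + 1)).sub_mem (A.move g hg0 hg'.2 (n + 1) _ (hh'.1 x hx))
        (A.move h hh0 hh'.2 (n + 1) _ (hg'.1 x hx))
    · rw [commutatorElement_def]
      exact (A.J 1 2).mul_mem ((A.J 1 2).mul_mem ((A.J 1 2).mul_mem hg'.2 hh'.2)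
        ((A.J 1 2).inv_mem hg'.2)) ((A.J 1 2).inv_mem hh'.2)

/-- the derived series acts trivially from some point on -/
theorem trivial (A : Act q ρ) [IsDomain R] [IsNoetherianRing R] [q.IsMaximal] [Finite (R ⧸ q)]
    (π : R) (hπ : π ∈ q) (hgen : ∀ y ∈ q, ∃ c, ∃ e ∈ q ^ 2, π * c + e = y)
    (hfin : (Set.range ρ).Finite) : ∃ n, ∀ g ∈ derivedSeries G n, ∀ x, ρ g x = x := by
  have hex : ∀ τ : R →+* R, ∃ k : ℕ, (∀ x, τ x - x ∈ q ^ k) → ∀ x, τ x = x := by
    intro τ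
    by_contra hcon
    push Not at hcon
    obtain ⟨-, x, hx⟩ := hcon 0
    have hbot : (⨅ i : ℕ, q ^ i) = ⊥ := Ideal.iInf_pow_eq_bot_of_isDomain q (Ideal.IsMaximal.ne_top ‹_›)
    have h1 : τ x - x ∈ (⨅ i : ℕ, q ^ i) := by
      rw [Submodule.mem_iInf]
      intro i
      exact (hcon i).1 x
    rw [hbot, Submodule.mem_bot] at h1
    exact hx (sub_eq_zero.1 h1)
  choose k hk using hex
  obtain ⟨K, hK⟩ := (hfin.image k).bddAbove
  refine ⟨K + 2, fun g hg => ?_⟩
  apply hk (ρ g)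
  intro x
  have h1 := (A.derived π hπ hgen K hg).1 x (by rw [pow_zero, Ideal.one_eq_top]; exact Submodule.mem_top)
  have h2 : k (ρ g) ≤ K := hK ⟨ρ g, ⟨g, rfl⟩, rfl⟩
  exact Ideal.pow_le_pow_right (by omega) h1

end Act

end Pool.Agent.Helper8.BKS
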