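import Pool.Agent.Helper64.BKS.Stmts
import Pool.Agent.Helper8.BKS.SLV0

/-! # SLV: decomposition groups are prosolvable -/

set_option autoImplicit false

open NumberField

namespace BKS

open BKA (Gal Zb Pl q Over Congr)

theorem st_SLV : ST_SLV := by
  intro F _ _ v 𝔓 hv M hMn hMo
  let H : ClosedSubgroup (Gal F) := ⟨M, M.isClosed_of_isOpen hMo⟩
  have hfix : (IntermediateField.fixedField M).fixingSubgroup = M :=
    InfiniteGalois.fixingSubgroup_fixedField H
  set L := IntermediateField.fixedField M with hL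
  obtain ⟨hfd, hgal⟩ := (InfiniteGalois.isOpen_and_normal_iff_finite_and_isGalois L).1
    ⟨by rw [hfix]; exact hMo, by rw [hfix]; exact hMn⟩
  have hNF : NumberField L := NumberField.of_module_finite F L
  let f : 𝓞 L →+* Zb F :=
    { toFun := fun x => ⟨((x : L) : AlgebraicClosure F), by
        have := x.2
        exact (isIntegral_algebraMap_iff (algebraMap L (AlgebraicClosure F)).injective).2 this⟩
      map_one' := rfl
      map_mul' := fun _ _ => rfl
      map_zero' := rfl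
      map_add' := fun _ _ => rfl }
  have h𝔓p := hv.1
  set Q : Ideal (𝓞 L) := 𝔓.comap f with hQ
  have hQprime : Q.IsPrime := Ideal.comap_isPrime f 𝔓
  have hQP : ∀ x : 𝓞 F, algebraMap (𝓞 F) (𝓞 L) x ∈ Q ↔ x ∈ v.asIdeal := by
    intro x
    rw [hQ, Ideal.mem_comap]
    exact (hv.2 x (f (algebraMap (𝓞 F) (𝓞 L) x)) rfl).symm
  have hlies : Q.LiesOver v.asIdeal := by
    rw [Ideal.liesOver_iff]
    ext x
    exact (hQP x).symm
  have hQ0 : Q ≠ ⊥ := Ideal.ne_bot_of_liesOver_of_ne_bot v.ne_bot _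
  have hQmax : Q.IsMaximal := hQprime.isMaximal hQ0
  have hQfin : Finite (𝓞 L ⧸ Q) :=
    (Ideal.absNorm_ne_zero_iff Q).1 (mt Ideal.absNorm_eq_zero_iff.1 hQ0)
  let act : Gal F → (𝓞 L →+* 𝓞 L) := fun σ =>
    RingOfIntegers.mapRingHom ((AlgEquiv.restrictNormalHom L σ : L ≃ₐ[F] L) : L →+* L)
  have hval : ∀ (σ : Gal F) (x : 𝓞 L), ((act σ x : L) : AlgebraicClosure F) =
      σ ((x : L) : AlgebraicClosure F) := by
    intro σ x
    exact AlgEquiv.restrictNormal_commutes σ L (x : L)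
  have hinj : ∀ x y : 𝓞 L, ((x : L) : AlgebraicClosure F) = ((y : L) : AlgebraicClosure F) →
      x = y := fun x y h => RingOfIntegers.ext (Subtype.ext h)
  have hA : Pool.Agent.Helper8.BKS.Act Q (fun g : ↥(Dec 𝔓) => act g) := by
    refine ⟨?_, ?_, ?_⟩
    · intro x
      apply hinj
      rw [hval]
      rfl
    · intro g h x
      apply hinj
      rw [hval, hval, hval]
      rfl
    · intro g x hx
      rw [hQ, Ideal.mem_comap] at hx ⊢
      refine (g.2 (f x) (f (act g x)) ?_).1 hx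
      exact hval g x
  obtain ⟨π, hπ, hπ2⟩ := SetLike.exists_of_lt (Ideal.pow_succ_lt_pow hQ0 1)
  have hgen : ∀ y ∈ Q, ∃ c, ∃ e ∈ Q ^ 2, π * c + e = y := by
    intro y hy
    exact Ideal.exists_mul_add_mem_pow_succ hQ0 π y hπ hπ2 (by rwa [pow_one])
  have hfin : (Set.range (fun g : ↥(Dec 𝔓) => act g)).Finite := by
    refine Set.Finite.subset (Set.finite_range (fun τ : L ≃ₐ[F] L =>
      RingOfIntegers.mapRingHom (τ : L →+* L))) ?_
    rintro _ ⟨g, rfl⟩
    exact ⟨AlgEquiv.restrictNormalHom L (g : Gal F), rfl⟩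
  obtain ⟨n, hn⟩ := hA.trivial π (by rwa [pow_one] at hπ) hgen hfin
  have hM : ∀ g ∈ derivedSeries (↥(Dec 𝔓)) n, (g : Gal F) ∈ M := by
    intro g hg
    rw [← hfix, IntermediateField.mem_fixingSubgroup_iff]
    intro y hy
    obtain ⟨a, b, hb, hab⟩ := IsFractionRing.div_surjective (A := 𝓞 L) (⟨y, hy⟩ : L)
    have h1 : ∀ a : 𝓞 L, (g : Gal F) ((a : L) : AlgebraicClosure F) =
        ((a : L) : AlgebraicClosure F) := by
      intro a
      rw [← hval, hn g hg a]
    have h2 : y = ((a : L) : AlgebraicClosure F) / ((b : L) : AlgebraicClosure F) :=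
      (congrArg Subtype.val hab).symm
    rw [h2, map_div₀, h1, h1]
  rw [Group.isSolvable_def]
  refine ⟨n, ?_⟩
  rw [← map_derivedSeries_eq ((QuotientGroup.mk' M).subgroupMap_surjective (Dec 𝔓)) n, eq_bot_iff]
  rintro _ ⟨g, hg, rfl⟩
  rw [Subgroup.mem_bot]
  apply Subtype.ext
  exact (QuotientGroup.eq_one_iff _).2 (hM g hg)

end BKS
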